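import Pool.Agent.Helper19.HV.StC

/-!
# Project HV, module E2
-/

set_option autoImplicit false

open scoped TensorProduct

namespace Pool.Agent.Helper19.HV

noncomputable section

open PL

private theorem e2_alt_lc {ι U : Type} {n : ℕ} [AddCommGroup U] [Module ℚ U]
    (A : ι → (U [⋀^Fin n]→ₗ[ℚ] ℚ)) (α : ι →₀ ℚ) (v : Fin n → U) :
    (Finsupp.linearCombination ℚ A α) v = Finsupp.linearCombination ℚ (fun x => A x v) α := by
  induction α using Finsupp.induction_linear with
  | zero => simp
  | add a b ha hb => rw [map_add, map_add, AlternatingMap.add_apply, ha, hb]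
  | single i r => simp

private theorem e2_lin_lc {ι U : Type} [AddCommGroup U] [Module ℚ U]
    (A : ι → (U →ₗ[ℚ] U →ₗ[ℚ] ℚ)) (α : ι →₀ ℚ) (a b : U) :
    (Finsupp.linearCombination ℚ A α) a b = Finsupp.linearCombination ℚ (fun x => A x a b) α := by
  induction α using Finsupp.induction_linear with
  | zero => simp
  | add c d hc hd => rw [map_add, map_add, LinearMap.add_apply, LinearMap.add_apply, hc, hd]
  | single i r => simp

/-- a linear functional which is zero on the constants and on the `E a` is zero -/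
private theorem e2_span {F : Type} [Field F] {cV : V F →ₗ[ℚ] V (RatFunc F)}
    {lc : V (RatFunc F) →ₗ[ℚ] V F} {od : V (RatFunc F) →ₗ[ℚ] (F →₀ ℚ)} (hs : Spl cV lc od)
    (g : V (RatFunc F) →ₗ[ℚ] ℚ) (h1 : ∀ c : F, g (lg (RatFunc.C c)) = 0)
    (h2 : ∀ a : F, g (E a) = 0) (k : V (RatFunc F)) : g k = 0 := by
  have h3 : g ∘ₗ cV = 0 := by
    apply LinearMap.ext_on_range (v := (lg : F → V F)) span_lg
    intro c
    rw [LinearMap.comp_apply, hs.cV_lg, h1, LinearMap.zero_apply]
  have h4 : g ∘ₗ Finsupp.linearCombination ℚ (E (F := F)) = 0 := by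
    apply Finsupp.lhom_ext'
    intro a
    apply LinearMap.ext_ring
    simp [h2]
  rw [hs.dec k, map_add]
  have h5 := LinearMap.congr_fun h3 (lc k)
  have h6 := LinearMap.congr_fun h4 (od k)
  rw [LinearMap.comp_apply] at h5 h6
  rw [h5, h6]
  simp

theorem mE2 (hG : sGNR) (hK : sKLF) (hA : sALT) : sE2 := by
  intro F _ cV lc od hs hY3 d c m hd hc hm w hw
  have hmem : w ∈ II c m 2 2 ⊔ LinearMap.range (d 2 1) := by
    by_contra hcon
    obtain ⟨f, hfw, hf⟩ := Submodule.exists_le_ker_of_notMem hcon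
    have hfI : ∀ y ∈ II c m 2 2, f y = 0 := fun y hy => hf (Submodule.mem_sup_left hy)
    have hfd : ∀ y, f (d 2 1 y) = 0 := fun y => hf (Submodule.mem_sup_right ⟨y, rfl⟩)
    set Ax : P1 (RatFunc F) → (V (RatFunc F) [⋀^Fin 2]→ₗ[ℚ] ℚ) :=
      fun x => (f ∘ₗ tmL 0 2 x).compAlternatingMap (pr (RatFunc F) 2) with hAx
    have hAk : Kil 2 Ax := hK (RatFunc F) ℚ 0 2 f
    obtain ⟨-, -, -, hA4, hA5, -⟩ := hA (V (RatFunc F)) ℚ
    choose L hL1 hL2 using fun x => hA4 (Ax x)
    have hL3 : ∀ x a b, L x a b = f (tm 0 2 x (pr (RatFunc F) 2 ![a, b])) := fun x a b => hL2 x a b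
    have hLs : Ls L := by
      refine ⟨?_, hL1, ?_⟩
      · intro α hα
        refine LinearMap.ext fun a => LinearMap.ext fun b => ?_
        rw [e2_lin_lc]
        have h1 := hAk α hα
        have h2 : (Finsupp.linearCombination ℚ Ax α) ![a, b] = 0 := by rw [h1]; rfl
        rw [e2_alt_lc] at h2
        rw [show (fun x => L x a b) = fun x => Ax x ![a, b] from funext fun x => hL2 x a b, h2]
        rfl
      · intro c' u k
        refine e2_span hs (L (cst c') (lg (RatFunc.C u))) ?_ ?_ k
        · intro u'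
          rw [hL3]
          apply hfI
          have h1 := hc.two 0 2 c' ![u, u']
          have h2 : (pr (RatFunc F) 2 fun i => lg (RatFunc.C (![u, u'] i))) =
              pr (RatFunc F) 2 ![lg (RatFunc.C u), lg (RatFunc.C u')] := by
            congr 1
            funext i
            fin_cases i <;> rfl
          rw [h2] at h1
          change tm 0 2 (Option.map RatFunc.C c') _ ∈ _
          rw [← h1]
          exact Submodule.mem_sup_left ⟨_, rfl⟩
        · intro a
          rw [hL3]
          apply hfI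
          have h1 := hm.two a 0 1 c' ![u]
          have h2 : (Fin.snoc (α := fun _ => V (RatFunc F))
              (fun i => lg (RatFunc.C (![u] i))) (lg (RatFunc.X - RatFunc.C a)) :
              Fin 2 → V (RatFunc F)) = ![lg (RatFunc.C u), E a] := by
            funext i
            fin_cases i <;> rfl
          have h3 : tm 0 2 (Option.map RatFunc.C c') (pr (RatFunc F) 2 ![lg (RatFunc.C u), E a]) =
              m a 2 1 (tm 0 1 c' (pr F 1 fun i => lg (![u] i))) := by
            rw [← h2]; exact h1.symm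
          change tm 0 2 (Option.map RatFunc.C c') _ ∈ _
          rw [h3]
          exact Submodule.mem_sup_right (Submodule.mem_iSup_of_mem a ⟨_, rfl⟩)
    have hLc : ∀ x k, L x (cl x) k = 0 := by
      intro x k
      rw [hL3]
      have h1 := hd.three 0 1 x (pr (RatFunc F) 1 ![k])
      rw [wdg_pr] at h1
      have h2 : (Fin.cons (cl x) ![k] : Fin 2 → V (RatFunc F)) = ![cl x, k] := rfl
      have h3 : tm 0 2 x (pr (RatFunc F) 2 ![cl x, k]) =
          d 2 1 (tm 1 1 x (pr (RatFunc F) 1 ![k])) := h1.symm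
      rw [h3]
      exact hfd _
    obtain ⟨χ, hχ4, hχ0, hχL⟩ := hY3 L hLs hLc
    obtain ⟨A4, hA4'⟩ := hA5 χ hχ4
    obtain ⟨g, hgp⟩ : ∃ g : Γ (RatFunc F) 1 3 →ₗ[ℚ] ℚ, ∀ v : Fin 4 → V (RatFunc F),
        g (pr (RatFunc F) 4 v) = χ (v 0) (v 1) (v 2) (v 3) := by
      refine ⟨exteriorPower.alternatingMapLinearEquiv A4, fun v => ?_⟩
      rw [← hA4']
      exact exteriorPower.alternatingMapLinearEquiv_apply_ιMulti A4 v
    have hgI : ∀ y ∈ II c m 1 3, g y = 0 := by
      have h1 : LinearMap.range (c 1 3) ≤ LinearMap.ker g := by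
        rintro _ ⟨y, rfl⟩
        refine LinearMap.congr_fun (hG F ℚ 4 (g ∘ₗ c 1 3) 0 ?_) y
        intro u
        have h2 := congrArg g (hc.one 3 u)
        exact h2.trans ((hgp _).trans (hχ0 (u 0) (u 1) (u 2) _))
      have h3 : ∀ a, LinearMap.range (m a 1 2) ≤ LinearMap.ker g := by
        intro a
        rintro _ ⟨y, rfl⟩
        refine LinearMap.congr_fun (hG F ℚ 3 (g ∘ₗ m a 1 2) 0 ?_) y
        intro u
        have h2 := congrArg g (hm.one a 2 u)
        exact h2.trans ((hgp _).trans (hχ0 (u 0) (u 1) (u 2) _))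
      intro y hy
      exact (sup_le h1 (iSup_le h3) : II c m 1 3 ≤ LinearMap.ker g) hy
    have hfg : f = g ∘ₗ d 1 2 := by
      apply gext 0 2
      intro x l
      have h1 : f ∘ₗ tmL 0 2 x = (g ∘ₗ d 1 2) ∘ₗ tmL 0 2 x := by
        apply wext
        intro v
        have h2 := hd.two 2 x (pr (RatFunc F) 2 v)
        rw [wdg_pr, wdg_pr] at h2
        have h3 : v = ![v 0, v 1] := by
          funext i
          fin_cases i <;> rfl
        have h4 : (f ∘ₗ tmL 0 2 x) (pr (RatFunc F) 2 v) = L x (v 0) (v 1) := by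
          rw [hL3, ← h3]; rfl
        have h5 : ((g ∘ₗ d 1 2) ∘ₗ tmL 0 2 x) (pr (RatFunc F) 2 v) =
            g (d 1 2 (tm 0 2 x (pr (RatFunc F) 2 v))) := rfl
        rw [h4, h5, h2]
        have h6 := hgp (Fin.cons (cl1 x) (Fin.cons (cl x) v))
        rw [hχL]
        exact h6.symm
      exact LinearMap.congr_fun h1 l
    apply hfw
    rw [hfg]
    exact hgI _ hw
  obtain ⟨y, hy, z, ⟨w', hw'⟩, hyz⟩ := Submodule.mem_sup.1 hmem
  refine ⟨w', ?_⟩
  have : w - d 2 1 w' = y := by rw [← hyz, hw']; abel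
  rw [this]
  exact hy

end

end Pool.Agent.Helper19.HV
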